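import Pool.Agent.Helper3_PQX.Stmts

/-!
Module EQV of squad PQX: the two forms of the condition on germs.
-/

set_option autoImplicit false

universe u

open MvPolynomial PGH PGL

namespace Pool.Agent.PQX.H31

open FibreTowers

lemma ev_of_mem {k M E : Type*} [Field k] [Field M] [Algebra k M] [Field E] [Algebra k E]
    {S : Subalgebra k M} (φ : S →ₐ[k] E) {t : M} (h : t ∈ S) : PGH.ev φ t = φ ⟨t, h⟩ := by
  rw [PGH.ev, dif_pos h]

/-- EQV -/
theorem eqv : EqvStmt.{u} := by
  intro k M _ _ _ F T n x A
  constructor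
  · intro h E _ _ _ S hTS hxS φ P h1 h2 l a ha h3
    have hκ : ∀ c : k, algebraMap k M c ∈ S.toSubring := fun c => S.algebraMap_mem c
    have key := h (E := E) S.toSubring hκ (fun l => hxS l) (fun t ht => hTS ht)
      (φ : S →+* E) (fun c => φ.commutes c) P
      (fun t ht htF ht0 => by
        have := h1 t ht htF ht0
        rw [ev_of_mem φ (hTS ht)] at this
        exact this)
      (fun l => by
        have := h2 l
        rw [ev_of_mem φ (hxS l)] at this
        exact this) l a ha
      (by
        rw [ev_of_mem φ (hxS l)] at h3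
        exact h3)
    obtain ⟨m, hm, b, hb, h4⟩ := key
    refine ⟨m, hm, b, hb, ?_⟩
    rw [ev_of_mem φ (hxS m)]
    exact h4
  · intro h E _ _ _ R hκ hx hT φ hφ P h1 h2 l a ha h3
    let S : Subalgebra k M := { R with algebraMap_mem' := hκ }
    let ψ : S →ₐ[k] E :=
      { toFun := fun z => φ ⟨z.1, z.2⟩
        map_one' := φ.map_one
        map_mul' := fun a b => φ.map_mul ⟨a.1, a.2⟩ ⟨b.1, b.2⟩
        map_zero' := φ.map_zero
        map_add' := fun a b => φ.map_add ⟨a.1, a.2⟩ ⟨b.1, b.2⟩
        commutes' := fun c => hφ c }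
    have hS : ∀ t (ht : t ∈ R), PGH.ev ψ t = φ ⟨t, ht⟩ := fun t ht => ev_of_mem ψ (t := t) ht
    have key := h (E := E) S (fun t ht => hT t ht) (fun l => hx l) ψ P
      (fun t ht htF ht0 => by
        rw [hS t (hT t ht)]
        exact h1 t ht htF ht0)
      (fun l => by
        rw [hS _ (hx l)]
        exact h2 l) l a ha
      (by
        rw [hS _ (hx l)]
        exact h3)
    obtain ⟨m, hm, b, hb, h4⟩ := key
    refine ⟨m, hm, b, hb, ?_⟩
    rw [hS _ (hx m)] at h4
    exact h4

end Pool.Agent.PQX.H31
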